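import Pool.Agent.H709U.Top
import Pool.Agent.H709R2.WFin
import Pool.Agent.H709R2.IntE

/-! Smoothed form of the bound for most rotations: most systems of every ball of coefficients. -/

set_option autoImplicit false

open Real Set MeasureTheory Topology Filter
open scoped ENNReal

namespace Pool.Agent.H911R3.Hil

noncomputable section

open Pool.Agent.H709R2 Pool.Agent.H709U

variable {S : Finset (ℕ × ℕ)}

/-- product of discs -/
def Near (c₀ : S → ℝ × ℝ) (δ : ℝ) : Set (S → ℝ × ℝ) :=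
  {c | ∀ m, ((c m).1 - (c₀ m).1) ^ 2 + ((c m).2 - (c₀ m).2) ^ 2 < δ ^ 2}

/-- the complex number with the given coordinates -/
def toC (v : ℝ × ℝ) : ℂ := ⟨v.1, v.2⟩

lemma toC_rot (α : ℝ) (v : ℝ × ℝ) : toC (rot α v) = Complex.exp (Complex.I * α) * toC v := by
  rw [mul_comm Complex.I]
  apply Complex.ext
  · rw [Complex.mul_re, Complex.exp_ofReal_mul_I_re, Complex.exp_ofReal_mul_I_im]
    simp [toC, rot]
  · rw [Complex.mul_im, Complex.exp_ofReal_mul_I_re, Complex.exp_ofReal_mul_I_im]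
    simp [toC, rot]
    ring

lemma norm_toC_sub (v w : ℝ × ℝ) :
    ‖toC v - toC w‖ ^ 2 = (v.1 - w.1) ^ 2 + (v.2 - w.2) ^ 2 := by
  rw [← Complex.normSq_eq_norm_sq, Complex.normSq_apply]
  simp [toC]
  ring

lemma norm_toC (v : ℝ × ℝ) : ‖toC v‖ ^ 2 = v.1 ^ 2 + v.2 ^ 2 := by
  rw [← Complex.normSq_eq_norm_sq, Complex.normSq_apply]
  simp [toC]
  ring

lemma mem_Near {c₀ c : S → ℝ × ℝ} {δ : ℝ} (hδ : 0 ≤ δ) :
    c ∈ Near c₀ δ ↔ ∀ m, ‖toC (c m) - toC (c₀ m)‖ < δ := by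
  unfold Near
  rw [mem_setOf_eq]
  refine forall_congr' fun m => ?_
  rw [← norm_toC_sub, sq_lt_sq₀ (norm_nonneg _) hδ]

lemma rotc_mem {c₀ c : S → ℝ × ℝ} {δ R α r : ℝ} (hδ : 0 ≤ δ) (hR : 0 ≤ R)
    (hc₀ : ∀ m, (c₀ m).1 ^ 2 + (c₀ m).2 ^ 2 ≤ R ^ 2) (hα : |α| * R ≤ r) (hr : 0 ≤ r)
    (hc : c ∈ Near c₀ δ) : rotc (-α) c ∈ Near c₀ (δ + r) := by
  rw [mem_Near hδ] at hc
  rw [mem_Near (by positivity)]
  intro m
  have h1 : ‖toC (c₀ m)‖ ≤ R := by
    have := hc₀ m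
    rw [← norm_toC] at this
    exact (sq_le_sq₀ (norm_nonneg _) hR).1 this
  have h2 : toC (rotc (-α) c m) = Complex.exp (Complex.I * ((-α : ℝ) : ℂ)) * toC (c m) := toC_rot _ _
  have h3 : ‖Complex.exp (Complex.I * ((-α : ℝ) : ℂ))‖ = 1 := by
    rw [mul_comm]; exact Complex.norm_exp_ofReal_mul_I _
  have h4 : ‖Complex.exp (Complex.I * ((-α : ℝ) : ℂ)) - 1‖ ≤ |α| := by
    have := Real.norm_exp_I_mul_ofReal_sub_one_le (x := -α)
    rwa [Real.norm_eq_abs, abs_neg] at this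
  rw [h2]
  calc ‖Complex.exp (Complex.I * ((-α : ℝ) : ℂ)) * toC (c m) - toC (c₀ m)‖
      = ‖Complex.exp (Complex.I * ((-α : ℝ) : ℂ)) * (toC (c m) - toC (c₀ m)) +
          (Complex.exp (Complex.I * ((-α : ℝ) : ℂ)) - 1) * toC (c₀ m)‖ := by
        congr 1; ring
    _ ≤ ‖Complex.exp (Complex.I * ((-α : ℝ) : ℂ)) * (toC (c m) - toC (c₀ m))‖ +
          ‖(Complex.exp (Complex.I * ((-α : ℝ) : ℂ)) - 1) * toC (c₀ m)‖ := norm_add_le _ _
    _ = ‖toC (c m) - toC (c₀ m)‖ +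
          ‖Complex.exp (Complex.I * ((-α : ℝ) : ℂ)) - 1‖ * ‖toC (c₀ m)‖ := by
        rw [norm_mul, norm_mul, h3, one_mul]
    _ < δ + |α| * R := add_lt_add_of_lt_of_le (hc m)
        (mul_le_mul h4 h1 (norm_nonneg _) (abs_nonneg _))
    _ ≤ δ + r := by linarith

lemma rotc_rotc_neg (α : ℝ) (c : S → ℝ × ℝ) : rotc α (rotc (-α) c) = c := by
  funext m
  unfold rotc rot
  have := Real.sin_sq_add_cos_sq α
  ext
  · simp only [Real.cos_neg, Real.sin_neg]
    linear_combination (c m).1 * this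
  · simp only [Real.cos_neg, Real.sin_neg]
    linear_combination (c m).2 * this

lemma isOpen_Near (c₀ : S → ℝ × ℝ) (δ : ℝ) : IsOpen (Near c₀ δ) := by
  unfold Near
  simp only [setOf_forall]
  refine isOpen_iInter_of_finite fun m => isOpen_lt ?_ continuous_const
  have h1 : Continuous fun z : (S → ℝ × ℝ) => z m := continuous_apply m
  fun_prop

lemma self_mem_Near (c₀ : S → ℝ × ℝ) {δ : ℝ} (hδ : 0 < δ) : c₀ ∈ Near c₀ δ := by
  rw [mem_Near hδ.le]
  intro m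
  simpa using hδ

lemma Near_subset (c₀ : S → ℝ × ℝ) {δ : ℝ} (hδ : 0 < δ) : Near c₀ δ ⊆ Metric.ball c₀ δ := by
  intro c hc
  rw [Metric.mem_ball, dist_pi_lt_iff hδ]
  intro m
  have h := hc m
  rw [Prod.dist_eq, max_lt_iff, Real.dist_eq, Real.dist_eq]
  constructor
  · exact abs_lt_of_sq_lt_sq (by nlinarith [sq_nonneg ((c m).2 - (c₀ m).2)]) hδ.le
  · exact abs_lt_of_sq_lt_sq (by nlinarith [sq_nonneg ((c m).1 - (c₀ m).1)]) hδ.le

lemma volume_Near_pos (c₀ : S → ℝ × ℝ) {δ : ℝ} (hδ : 0 < δ) : 0 < volume (Near c₀ δ) :=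
  (isOpen_Near c₀ δ).measure_pos volume ⟨c₀, self_mem_Near c₀ hδ⟩

lemma volume_Near_lt_top (c₀ : S → ℝ × ℝ) {δ : ℝ} (hδ : 0 < δ) : volume (Near c₀ δ) < ⊤ :=
  lt_of_le_of_lt (measure_mono (Near_subset c₀ hδ)) Metric.isBounded_ball.measure_lt_top

lemma Near_homothety (c₀ : S → ℝ × ℝ) {δ q : ℝ} (hδ : 0 < δ) (hq : 0 < q) :
    Near c₀ (q * δ) ⊆ AffineMap.homothety c₀ q '' Near c₀ δ := by
  intro c hc
  refine ⟨c₀ + q⁻¹ • (c - c₀), ?_, ?_⟩
  · intro m
    have h := hc m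
    have e1 : ((c₀ + q⁻¹ • (c - c₀)) m).1 - (c₀ m).1 = q⁻¹ * ((c m).1 - (c₀ m).1) := by
      simp
    have e2 : ((c₀ + q⁻¹ • (c - c₀)) m).2 - (c₀ m).2 = q⁻¹ * ((c m).2 - (c₀ m).2) := by
      simp
    rw [e1, e2, mul_pow, mul_pow, ← mul_add, inv_pow, inv_mul_lt_iff₀ (by positivity)]
    rw [mul_pow] at h
    exact h
  · rw [AffineMap.homothety_apply]
    simp only [vsub_eq_sub, vadd_eq_add, add_sub_cancel_left]
    rw [smul_smul, mul_inv_cancel₀ hq.ne', one_smul]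
    abel

lemma finrank_coef (S : Finset (ℕ × ℕ)) : Module.finrank ℝ (S → ℝ × ℝ) = 2 * S.card := by
  rw [Module.finrank_pi_fintype]
  simp [mul_comm]

lemma volume_Near_scale (c₀ : S → ℝ × ℝ) {δ : ℝ} (hδ : 0 < δ) (hS : S.Nonempty) :
    volume (Near c₀ ((1 + 1 / (2 * S.card : ℝ)) * δ)) ≤ ENNReal.ofReal 3 * volume (Near c₀ δ) := by
  have hc : (0 : ℝ) < 2 * S.card := by
    have : 0 < S.card := hS.card_pos
    positivity
  have hq : (0 : ℝ) < 1 + 1 / (2 * S.card : ℝ) := by positivity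
  refine (measure_mono (Near_homothety c₀ hδ hq)).trans ?_
  rw [Measure.addHaar_image_homothety]
  gcongr
  rw [finrank_coef, abs_of_nonneg (by positivity)]
  have h1 : 1 + 1 / (2 * S.card : ℝ) ≤ Real.exp (1 / (2 * S.card : ℝ)) := by
    rw [add_comm]; exact Real.add_one_le_exp _
  calc (1 + 1 / (2 * S.card : ℝ)) ^ (2 * S.card)
      ≤ Real.exp (1 / (2 * S.card : ℝ)) ^ (2 * S.card) := by gcongr
    _ = Real.exp 1 := by
        rw [← Real.exp_nat_mul]
        congr 1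
        push_cast
        field_simp
    _ ≤ 3 := by
        have := Real.exp_one_lt_d9
        linarith

lemma NP_of_fld_zero {c : S → ℝ × ℝ} (h : fld c = 0) : NP c = 0 := by
  unfold NP
  rw [h]
  have : {C : Set (ℝ × ℝ) | ClosedOrbit 0 C} = ∅ := by
    ext C
    simp only [mem_setOf_eq, mem_empty_iff_false, iff_false]
    rintro ⟨γ, T, -, h1, -, ⟨s, t, hst⟩, -⟩
    apply hst
    have hd : Differentiable ℝ γ := fun t => (h1 t).differentiableAt
    exact is_const_of_deriv_eq_zero hd (fun t => (h1 t).deriv) s t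
  rw [this]
  simp

/-- the slice estimate -/
lemma slice {n : ℕ} (hS : ∀ m ∈ S, m.1 + m.2 ≤ n) (c : S → ℝ × ℝ) {ε : ℝ} (hε : 0 < ε)
    (hε1 : ε ≤ 1) :
    volume {α | α ∈ Ioo 0 π ∧ ENNReal.ofReal (10 ^ 11 * (n + 1) ^ 13 / ε ^ 3) < NP (rotc α c)} ≤
      ENNReal.ofReal ε := by
  obtain ⟨P, Q, hP, hQ, hPQ⟩ := exists_poly c
  have hn : S.sup (fun m => m.1 + m.2) ≤ n := Finset.sup_le hS
  have hcl : ∀ α, NP (rotc α c) = ((Cl P Q α).encard : ℝ≥0∞) := by
    intro α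
    unfold NP Cl
    have : rf (field P Q) α = fld (rotc α c) := by
      funext z
      unfold rf
      rw [hPQ, rot_fld]
    rw [this]
  by_cases hne : P ≠ 0 ∨ Q ≠ 0
  · simp only [hcl]
    exact main n P Q (hP.trans hn) (hQ.trans hn) hne ε hε hε1
  · push Not at hne
    have h0 : fld c = 0 := by
      rw [← hPQ, hne.1, hne.2]
      funext z
      unfold field
      simp
    have h1 : ∀ α, NP (rotc α c) = 0 := by
      intro α
      apply NP_of_fld_zero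
      funext z
      rw [← rot_fld, h0]
      exact rot_zero α
    simp only [h1, not_lt_zero', and_false, setOf_false, measure_empty, zero_le]

/-- the main estimate -/
theorem smoothed {n : ℕ} (hS : ∀ m ∈ S, m.1 + m.2 ≤ n) (hne : S.Nonempty) {R δ η : ℝ}
    (hδ : 0 < δ) (hδR : δ ≤ R) (hη : 0 < η) (hη1 : η ≤ 1) (c₀ : S → ℝ × ℝ)
    (hc₀ : ∀ m, (c₀ m).1 ^ 2 + (c₀ m).2 ^ 2 ≤ R ^ 2) :
    volume {c | c ∈ Near c₀ δ ∧
      ENNReal.ofReal (3 * 10 ^ 13 * (n + 1) ^ 13 * S.card ^ 3 * (R / (η * δ)) ^ 3) < NP c} ≤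
      ENNReal.ofReal η * volume (Near c₀ δ) := by
  have hR : 0 < R := lt_of_lt_of_le hδ hδR
  have hcard : (1 : ℝ) ≤ S.card := by exact_mod_cast hne.card_pos
  set D : ℝ := 2 * S.card with hD
  have hD2 : 2 ≤ D := by rw [hD]; linarith
  have hD0 : 0 < D := by linarith
  set α₀ : ℝ := δ / (D * R) with hα₀
  have hα0 : 0 < α₀ := by positivity
  have hα1 : α₀ ≤ 1 / 2 := by
    rw [hα₀, div_le_div_iff₀ (by positivity) (by norm_num)]
    nlinarith
  set ε : ℝ := η * α₀ / 3 with hε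
  have hε0 : 0 < ε := by positivity
  have hε1 : ε ≤ 1 := by
    rw [hε]
    nlinarith
  set K : ℝ≥0∞ := ENNReal.ofReal (10 ^ 11 * (n + 1) ^ 13 / ε ^ 3) with hK
  have hKle : K ≤ ENNReal.ofReal (3 * 10 ^ 13 * (n + 1) ^ 13 * S.card ^ 3 * (R / (η * δ)) ^ 3) := by
    rw [hK]
    apply ENNReal.ofReal_le_ofReal
    have e1 : (10:ℝ) ^ 11 * (n + 1) ^ 13 / ε ^ 3 =
        216 * 10 ^ 11 * (n + 1) ^ 13 * S.card ^ 3 * (R / (η * δ)) ^ 3 := by
      rw [hε, hα₀, hD]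
      field_simp
      ring
    rw [e1]
    have hX : 0 ≤ ((n:ℝ) + 1) ^ 13 * S.card ^ 3 * (R / (η * δ)) ^ 3 := by positivity
    have e2 : 216 * 10 ^ 11 * ((n:ℝ) + 1) ^ 13 * S.card ^ 3 * (R / (η * δ)) ^ 3 =
        216 * 10 ^ 11 * (((n:ℝ) + 1) ^ 13 * S.card ^ 3 * (R / (η * δ)) ^ 3) := by ring
    have e3 : 3 * 10 ^ 13 * ((n:ℝ) + 1) ^ 13 * S.card ^ 3 * (R / (η * δ)) ^ 3 =
        3 * 10 ^ 13 * (((n:ℝ) + 1) ^ 13 * S.card ^ 3 * (R / (η * δ)) ^ 3) := by ring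
    rw [e2, e3]
    exact mul_le_mul_of_nonneg_right (by norm_num) hX
  set A : Set (S → ℝ × ℝ) := {c | K < NP c} with hA
  have hAm : MeasurableSet A := measurableSet_lt measurable_const measurable_NP
  set q : ℝ := 1 + 1 / D with hq
  set B : Set (S → ℝ × ℝ) := Near c₀ δ with hB
  set B' : Set (S → ℝ × ℝ) := Near c₀ (q * δ) with hB'
  have hBm : MeasurableSet B := (isOpen_Near c₀ δ).measurableSet
  have hBm' : MeasurableSet B' := (isOpen_Near c₀ _).measurableSet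
  set E : Set (ℝ × (S → ℝ × ℝ)) := {z | z.1 ∈ Ioo 0 α₀ ∧ z.2 ∈ B' ∧ rotc z.1 z.2 ∈ A} with hE
  have hEm : MeasurableSet E := by
    refine (measurable_fst measurableSet_Ioo).inter ((measurable_snd hBm').inter ?_)
    exact continuous_rotc.measurable hAm
  -- lower bound
  have hlow : ENNReal.ofReal α₀ * volume (A ∩ B) ≤ (volume.prod volume) E := by
    rw [Measure.prod_apply hEm]
    have h1 : ∀ α ∈ Ioo 0 α₀, volume (A ∩ B) ≤ volume (Prod.mk α ⁻¹' E) := by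
      intro α hα
      set G : Set (S → ℝ × ℝ) := {c | c ∈ B' ∧ rotc α c ∈ A} with hG
      have hGm : MeasurableSet G := hBm'.inter ((measurePreserving_rotc α).measurable hAm)
      have hsub : A ∩ B ⊆ rotc (-α) ⁻¹' G := by
        rintro c ⟨hcA, hcB⟩
        refine ⟨?_, ?_⟩
        · have h2 : |α| * R ≤ δ / D := by
            rw [abs_of_pos hα.1]
            calc α * R ≤ α₀ * R := by
                  exact mul_le_mul_of_nonneg_right hα.2.le hR.le
              _ = δ / D := by rw [hα₀]; field_simp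
          have h3 := rotc_mem hδ.le hR.le hc₀ h2 (by positivity) hcB
          have h4 : δ + δ / D = q * δ := by rw [hq]; ring
          rw [h4] at h3
          exact h3
        · show rotc α (rotc (-α) c) ∈ A
          rw [rotc_rotc_neg]
          exact hcA
      have h5 : volume (rotc (-α) ⁻¹' G) = volume G :=
        (measurePreserving_rotc (-α)).measure_preimage hGm.nullMeasurableSet
      have h6 : G ⊆ Prod.mk α ⁻¹' E := fun c hc => ⟨hα, hc.1, hc.2⟩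
      exact (measure_mono hsub).trans (h5.le.trans (measure_mono h6))
    calc ENNReal.ofReal α₀ * volume (A ∩ B)
        = ∫⁻ _ in Ioo 0 α₀, volume (A ∩ B) := by
          rw [setLIntegral_const, Real.volume_Ioo, sub_zero, mul_comm]
      _ ≤ ∫⁻ α in Ioo 0 α₀, volume (Prod.mk α ⁻¹' E) :=
          setLIntegral_mono' measurableSet_Ioo h1
      _ ≤ ∫⁻ α, volume (Prod.mk α ⁻¹' E) := setLIntegral_le_lintegral _ _
  -- upper bound
  have hup : (volume.prod volume) E ≤ ENNReal.ofReal ε * volume B' := by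
    rw [Measure.prod_apply_symm hEm]
    have h1 : ∀ c, volume ((fun α => (α, c)) ⁻¹' E) ≤ B'.indicator (fun _ => ENNReal.ofReal ε) c := by
      intro c
      by_cases hc : c ∈ B'
      · rw [indicator_of_mem hc]
        refine (measure_mono ?_).trans (slice hS c hε0 hε1)
        rintro α ⟨h2, -, h3⟩
        refine ⟨⟨h2.1, ?_⟩, h3⟩
        have := Real.pi_gt_three
        have h4 : α < α₀ := h2.2
        linarith
      · rw [indicator_of_notMem hc]
        have : (fun α => (α, c)) ⁻¹' E = ∅ := by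
          ext α
          simp only [mem_preimage, mem_empty_iff_false, iff_false]
          rintro ⟨-, h, -⟩
          exact hc h
        rw [this, measure_empty]
    refine (lintegral_mono h1).trans ?_
    rw [lintegral_indicator hBm', setLIntegral_const]
  have hsc : volume B' ≤ ENNReal.ofReal 3 * volume B := volume_Near_scale c₀ hδ hne
  have hfin : ENNReal.ofReal α₀ * volume (A ∩ B) ≤ ENNReal.ofReal α₀ * (ENNReal.ofReal η * volume B) := by
    refine hlow.trans (hup.trans ?_)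
    calc ENNReal.ofReal ε * volume B' ≤ ENNReal.ofReal ε * (ENNReal.ofReal 3 * volume B) := by gcongr
      _ = ENNReal.ofReal α₀ * (ENNReal.ofReal η * volume B) := by
          rw [← mul_assoc, ← mul_assoc, ← ENNReal.ofReal_mul hε0.le, ← ENNReal.ofReal_mul hα0.le]
          congr 2
          rw [hε]; ring
  have h0 : ENNReal.ofReal α₀ ≠ 0 := by
    rw [Ne, ENNReal.ofReal_eq_zero, not_le]; exact hα0
  have hAB : volume (A ∩ B) ≤ ENNReal.ofReal η * volume B :=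
    (ENNReal.mul_le_mul_iff_right h0 ENNReal.ofReal_ne_top).1 hfin
  refine (measure_mono ?_).trans hAB
  rintro c ⟨hc1, hc2⟩
  exact ⟨lt_of_le_of_lt hKle hc2, hc1⟩

/-- existence in every ball -/
theorem exists_near {n : ℕ} (hS : ∀ m ∈ S, m.1 + m.2 ≤ n) (hne : S.Nonempty) {R δ : ℝ}
    (hδ : 0 < δ) (hδR : δ ≤ R) (c₀ : S → ℝ × ℝ)
    (hc₀ : ∀ m, (c₀ m).1 ^ 2 + (c₀ m).2 ^ 2 ≤ R ^ 2) :
    ∃ c ∈ Near c₀ δ,
      NP c ≤ ENNReal.ofReal (3 * 10 ^ 14 * (n + 1) ^ 13 * S.card ^ 3 * (R / δ) ^ 3) := by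
  by_contra hcon
  push Not at hcon
  have hR : 0 < R := lt_of_lt_of_le hδ hδR
  have h := smoothed hS hne hδ hδR (η := 1 / 2) (by norm_num) (by norm_num) c₀ hc₀
  have hsub : Near c₀ δ ⊆ {c | c ∈ Near c₀ δ ∧
      ENNReal.ofReal (3 * 10 ^ 13 * (n + 1) ^ 13 * S.card ^ 3 * (R / (1 / 2 * δ)) ^ 3) < NP c} := by
    intro c hc
    refine ⟨hc, lt_of_le_of_lt (ENNReal.ofReal_le_ofReal ?_) (hcon c hc)⟩
    have e1 : 3 * 10 ^ 13 * ((n:ℝ) + 1) ^ 13 * S.card ^ 3 * (R / (1 / 2 * δ)) ^ 3 =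
        24 * 10 ^ 13 * (n + 1) ^ 13 * S.card ^ 3 * (R / δ) ^ 3 := by
      field_simp
      ring
    rw [e1]
    have hX : 0 ≤ ((n:ℝ) + 1) ^ 13 * S.card ^ 3 * (R / δ) ^ 3 := by positivity
    have e2 : 24 * 10 ^ 13 * ((n:ℝ) + 1) ^ 13 * S.card ^ 3 * (R / δ) ^ 3 =
        24 * 10 ^ 13 * (((n:ℝ) + 1) ^ 13 * S.card ^ 3 * (R / δ) ^ 3) := by ring
    have e3 : 3 * 10 ^ 14 * ((n:ℝ) + 1) ^ 13 * S.card ^ 3 * (R / δ) ^ 3 =
        3 * 10 ^ 14 * (((n:ℝ) + 1) ^ 13 * S.card ^ 3 * (R / δ) ^ 3) := by ring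
    rw [e2, e3]
    exact mul_le_mul_of_nonneg_right (by norm_num) hX
  have h1 := (measure_mono hsub).trans h
  have h2 := volume_Near_pos c₀ hδ
  have h3 := volume_Near_lt_top c₀ hδ
  have h4 : ENNReal.ofReal (1 / 2) * volume (Near c₀ δ) < volume (Near c₀ δ) := by
    calc ENNReal.ofReal (1 / 2) * volume (Near c₀ δ) < 1 * volume (Near c₀ δ) := by
          refine (ENNReal.mul_lt_mul_iff_left h2.ne' h3.ne).2 ?_
          rw [← ENNReal.ofReal_one]
          exact (ENNReal.ofReal_lt_ofReal_iff (by norm_num)).2 (by norm_num)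
      _ = volume (Near c₀ δ) := one_mul _
  exact absurd h1 (not_le.2 h4)

end

end Pool.Agent.H911R3.Hil
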